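import Pool.Agent.H303.NY.FinE

/-!
# Weak limits of the nodal measures on closed surfaces

Let `M` be a closed connected surface with a smooth Riemannian metric, and let `f_n` be eigenfunctions
with eigenvalues tending to infinity. The normalized nodal measure of `f` is the length on the zero set
of `f`, divided by its total length. The question is whether these measures tend to the normalized area
if the geodesic flow is ergodic. We prove, with no assumption on the geodesic flow and for all sequences:

* every weak limit `ν` of the normalized nodal measures satisfies `ν ≥ c · area`, it is absolutely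
  continuous, and its density is in `L^p` for every `p < 2`, with constants `c = c (M) > 0` and
  `K = K (M, p)`;
* so the part of the nodal set in a domain `D` whose boundary has area zero is asymptotically at least
  `c · area D` and at most `K (area D) ^ (1 - 1 / p)`, uniformly for all eigenfunctions;
* the exponent `2` is sharp: on the round sphere the nodal measures of `Re (x₀ + i x₁) ^ l` tend to a
  measure whose density (a constant multiple of `1 / sin θ`) is not in `L²`.

The proof uses the power means of the nodal lengths in discs of the size of the wavelength
(`Results/MP_c7f82c_an/NodalLength.lean`): the bound for an exponent `p > 1` gives the uniform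
integrability of the local lengths. The parts D1-D9 were formalised by helpers 328, 277, 149, 972, 746,
553, 213, 407 and 784.
-/

set_option autoImplicit false
open MeasureTheory Filter Topology Complex Bundle
open scoped ContDiff Manifold

namespace Pool.Agent.Results.MP_2a6ca1_gt.NodalLimits

open Pool.Agent.H303.NP Pool.Agent.H303.NP.Pub Pool.Agent.H303.NY Pool.Agent.H303.NY.Pub

universe u v

/-- **Weak limits of the nodal measures of eigenfunctions on closed surfaces.** -/
theorem result :
    -- (1) smooth Riemannian surfaces in the sense of Mathlib
    (∀ (E : Type v) [NormedAddCommGroup E] [NormedSpace ℝ E] (b : Module.Basis (Fin 2) ℝ E)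
      (M : Type u) [MetricSpace M] [ChartedSpace E M] [IsManifold 𝓘(ℝ, E) ∞ M]
      [RiemannianBundle (fun x : M => TangentSpace 𝓘(ℝ, E) x)]
      [IsContMDiffRiemannianBundle 𝓘(ℝ, E) ∞ E (fun x : M => TangentSpace 𝓘(ℝ, E) x)]
      [IsRiemannianManifold 𝓘(ℝ, E) M] [CompactSpace M] [ConnectedSpace M]
      [MeasurableSpace M] [BorelSpace M],
      LimitBounds (M := M) (IsEigenfunctionOn b) ∧ DomainBounds (M := M) (IsEigenfunctionOn b)) ∧
    -- (2) surfaces given by isothermal charts, with a metric of class `C¹`
    (∀ (M : Type u) (ι : Type v) [MetricSpace M] [CompactSpace M] [ConnectedSpace M]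
      [MeasurableSpace M] [BorelSpace M]
      (U : ι → Set ℂ) (φ : ι → ℂ → M) (ρ : ι → ℂ → ℝ), RiemannianSurface U φ ρ →
      LimitBounds (IsEigenfunction U φ ρ) ∧ DomainBounds (IsEigenfunction U φ ρ)) ∧
    -- (3) the exponent is sharp on the round sphere
    SphereLimit :=
  ⟨fun E _ _ b M _ _ _ _ _ _ _ _ _ _ => man_both E b M,
    fun M ι _ _ _ _ _ U φ ρ h => iso_both M ι U φ ρ h,
    sphere_limit g_yu.{0, 0} g_ylo.{0, 0} (fun _ h1 h2 => g_z5.{0, 0} h1 h2) tw3 tw4 td7 td8⟩

end Pool.Agent.Results.MP_2a6ca1_gt.NodalLimits
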